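import Pool.Agent.N598.VT.Defs
import Pool.Agent.TH700.PA.GameTight
import Mathlib.Analysis.SpecialFunctions.Exp
import Mathlib.Analysis.SpecialFunctions.Log.Basic

/-!
# Mixtures of stars have large vertex covers
-/

set_option autoImplicit false

open Finset

namespace Pool.Agent.N598.VT

open Pool.Agent.TH700.PA

variable {n t : ℕ}

/-- The number of pairs. -/
theorem card_pair (n : ℕ) : 2 * Fintype.card (Pair n) + n = n * n := by
  classical
  have h1 : Fintype.card (Pair n) = (univ.filter (fun e : Fin n × Fin n => e.1 < e.2)).card :=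
    Fintype.card_subtype _
  have h2 : (univ.filter (fun e : Fin n × Fin n => e.2 < e.1)).card =
      (univ.filter (fun e : Fin n × Fin n => e.1 < e.2)).card := by
    refine card_bij (fun e _ => e.swap) ?_ ?_ ?_
    · intro e he
      simpa using he
    · intro e _ e' _ h
      exact Prod.swap_injective h
    · intro e he
      exact ⟨e.swap, by simpa using he, by simp⟩
  have h3 : (univ.filter (fun e : Fin n × Fin n => e.1 = e.2)).card = n := by
    have : (univ.filter (fun e : Fin n × Fin n => e.1 = e.2)) =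
        (univ : Finset (Fin n)).image (fun i => (i, i)) := by
      ext e
      simp only [mem_filter, mem_univ, true_and, mem_image]
      constructor
      · intro h
        exact ⟨e.1, by rw [Prod.ext_iff]; exact ⟨rfl, h⟩⟩
      · rintro ⟨i, rfl⟩
        rfl
    rw [this, card_image_of_injective _ (fun i j h => (Prod.ext_iff.1 h).1), card_univ,
      Fintype.card_fin]
  have h4 : (univ : Finset (Fin n × Fin n)).card = n * n := by
    rw [card_univ, Fintype.card_prod, Fintype.card_fin]
  have h5 : (univ : Finset (Fin n × Fin n)) =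
      (univ.filter (fun e : Fin n × Fin n => e.1 < e.2) ∪
        univ.filter (fun e : Fin n × Fin n => e.2 < e.1)) ∪
        univ.filter (fun e : Fin n × Fin n => e.1 = e.2) := by
    ext e
    simp only [mem_univ, mem_union, mem_filter, true_and, true_iff]
    rcases lt_trichotomy e.1 e.2 with h | h | h
    · exact Or.inl (Or.inl h)
    · exact Or.inr h
    · exact Or.inl (Or.inr h)
  rw [h5, card_union_of_disjoint, card_union_of_disjoint, h2, h3, ← h1] at h4
  · omega
  · rw [disjoint_left]
    intro e he he'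
    simp only [mem_filter, mem_univ, true_and] at he he'
    exact lt_asymm he he'
  · rw [disjoint_left]
    intro e he he'
    simp only [mem_filter, mem_univ, true_and, mem_union] at he he'
    rcases he with he | he
    · exact absurd he' (ne_of_lt he)
    · exact absurd he'.symm (ne_of_lt he)

/-- The number of the pairs of the part `j` which contain `v`. -/
noncomputable def deg (p : Pair n → Fin t) (j : Fin t) (v : Fin n) : ℕ :=
  (univ.filter (fun e : Pair n => p e = j ∧ (e.1.1 = v ∨ e.1.2 = v))).card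

/-- The vertices contained in more than `b` pairs of the part `j`. -/
noncomputable def rich (p : Pair n → Fin t) (b : ℕ) (j : Fin t) : Finset (Fin n) :=
  univ.filter (fun v => b < deg p j v)

/-- Many vertices are rich in many parts. -/
theorem sum_rich (p : Pair n → Fin t) (b y : ℕ)
    (hb : ∀ j, (univ.filter (fun e => p e = j)).card ≤ 2 * y ^ 2) :
    Fintype.card (Pair n) ≤ 2 * y * ∑ j, (rich p b j).card + t * (n * b) := by
  classical
  have h1 : Fintype.card (Pair n) = ∑ j, (univ.filter (fun e => p e = j)).card := by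
    rw [← card_univ]
    exact card_eq_sum_card_fiberwise (fun _ _ => mem_univ _)
  rw [h1, mul_sum]
  have h2 : t * (n * b) = ∑ _j : Fin t, n * b := by simp
  rw [h2, ← sum_add_distrib]
  refine sum_le_sum fun j _ => ?_
  obtain ⟨A, hA⟩ : ∃ A, A = rich p b j := ⟨_, rfl⟩
  rw [← hA]
  have h3 : univ.filter (fun e => p e = j) ⊆
      univ.filter (fun e : Pair n => p e = j ∧ e.1.1 ∈ A ∧ e.1.2 ∈ A) ∪
        Aᶜ.biUnion (fun v => univ.filter (fun e : Pair n => p e = j ∧ (e.1.1 = v ∨ e.1.2 = v))) := by
    intro e he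
    have he' := (mem_filter.1 he).2
    rw [mem_union, mem_filter, mem_biUnion]
    by_cases h : e.1.1 ∈ A
    · by_cases h' : e.1.2 ∈ A
      · exact Or.inl ⟨mem_univ _, he', h, h'⟩
      · exact Or.inr ⟨e.1.2, mem_compl.2 h', mem_filter.2 ⟨mem_univ _, he', Or.inr rfl⟩⟩
    · exact Or.inr ⟨e.1.1, mem_compl.2 h, mem_filter.2 ⟨mem_univ _, he', Or.inl rfl⟩⟩
  refine (card_le_card h3).trans ((card_union_le _ _).trans (Nat.add_le_add ?_ ?_))
  · have h4 : (univ.filter (fun e : Pair n => p e = j ∧ e.1.1 ∈ A ∧ e.1.2 ∈ A)).card ≤ 2 * y ^ 2 := by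
      refine (card_le_card fun e he => ?_).trans (hb j)
      rw [mem_filter] at he ⊢
      exact ⟨he.1, he.2.1⟩
    have h5 : (univ.filter (fun e : Pair n => p e = j ∧ e.1.1 ∈ A ∧ e.1.2 ∈ A)).card ≤
        A.card * A.card := by
      rw [← card_product]
      refine card_le_card_of_injOn (fun e => e.1) (fun e he => ?_) (fun e _ e' _ h => Subtype.ext h)
      have he' := mem_filter.1 he
      exact mem_product.2 ⟨he'.2.2.1, he'.2.2.2⟩
    rcases Nat.lt_or_ge (2 * y) A.card with h6 | h6
    · nlinarith
    · nlinarith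
  · refine card_biUnion_le.trans ?_
    calc ∑ v ∈ Aᶜ, (univ.filter (fun e : Pair n => p e = j ∧ (e.1.1 = v ∨ e.1.2 = v))).card ≤
        ∑ _v ∈ Aᶜ, b := by
          refine sum_le_sum fun v hv => ?_
          rw [mem_compl, hA] at hv
          by_contra hcon
          rw [not_le] at hcon
          exact hv (mem_filter.2 ⟨mem_univ _, hcon⟩)
      _ = Aᶜ.card * b := by rw [sum_const, smul_eq_mul]
      _ ≤ n * b := by
          refine Nat.mul_le_mul_right _ ?_
          have := card_le_univ Aᶜ
          rwa [Fintype.card_fin] at this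

/-- The graph of all pairs which meet a set of `k` vertices (given with repetitions). -/
def star {k : ℕ} (σ : Fin k → Fin n) (e : Pair n) : Bool :=
  decide (∃ i, σ i = e.1.1 ∨ σ i = e.1.2)

theorem star_cover {k : ℕ} (σ : Fin k → Fin n) : CoverLe k (star σ) := by
  classical
  refine ⟨univ.image σ, fun e he => ?_, card_image_le.trans (by simp)⟩
  unfold star at he
  obtain ⟨i, hi⟩ := of_decide_eq_true he
  exact hi.imp (fun h => mem_image.2 ⟨i, mem_univ _, h⟩) fun h => mem_image.2 ⟨i, mem_univ _, h⟩

/-- A small cover of a mixture contains all rich vertices. -/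
theorem rich_mem {k b : ℕ} (p : Pair n → Fin t) (β : Fin t → Fin k → Fin n)
    {C : Finset (Fin n)} (hC : IsCover (mixp p star β) C) (hb : C.card ≤ b) (j : Fin t)
    (i : Fin k) (h : β j i ∈ rich p b j) : β j i ∈ C := by
  classical
  by_contra hcon
  obtain ⟨v, hv⟩ : ∃ v, v = β j i := ⟨_, rfl⟩
  rw [← hv] at hcon h
  have h1 := (mem_filter.1 h).2
  have h2 : deg p j v ≤ C.card := by
    unfold deg
    refine card_le_card_of_injOn (fun e => if e.1.1 = v then e.1.2 else e.1.1) ?_ ?_
    · intro e he
      have he' := (mem_filter.1 he).2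
      have h3 : mixp p star β e = true := by
        show star (β (p e)) e = true
        rw [he'.1]
        unfold star
        refine decide_eq_true ⟨i, ?_⟩
        rw [← hv]
        exact he'.2.imp Eq.symm Eq.symm
      have h4 := hC e h3
      show (if e.1.1 = v then e.1.2 else e.1.1) ∈ C
      split_ifs with h5
      · rcases h4 with h4 | h4
        · rw [h5] at h4
          exact absurd h4 hcon
        · exact h4
      · rcases h4 with h4 | h4
        · exact h4
        · rw [he'.2.resolve_left h5] at h4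
          exact absurd h4 hcon
    · intro e he e' he' hee
      have g1 := (mem_filter.1 he).2.2
      have g2 := (mem_filter.1 he').2.2
      have l1 := e.2
      have l2 := e'.2
      simp only at hee
      refine Subtype.ext (Prod.ext ?_ ?_)
      · by_cases h5 : e.1.1 = v
        · by_cases h6 : e'.1.1 = v
          · rw [h5, h6]
          · rw [if_pos h5, if_neg h6] at hee
            have h7 := g2.resolve_left h6
            rw [h7, ← hee] at l2
            rw [h5] at l1
            exact absurd l1 (lt_asymm l2)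
        · by_cases h6 : e'.1.1 = v
          · rw [if_neg h5, if_pos h6] at hee
            have h7 := g1.resolve_left h5
            rw [h7, hee] at l1
            rw [h6] at l2
            exact absurd l1 (lt_asymm l2)
          · rw [if_neg h5, if_neg h6] at hee
            exact hee
      · by_cases h5 : e.1.1 = v
        · by_cases h6 : e'.1.1 = v
          · rw [if_pos h5, if_pos h6] at hee
            exact hee
          · rw [if_pos h5, if_neg h6] at hee
            have h7 := g2.resolve_left h6
            rw [h7, ← hee] at l2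
            rw [h5] at l1
            exact absurd l1 (lt_asymm l2)
        · by_cases h6 : e'.1.1 = v
          · rw [if_neg h5, if_pos h6] at hee
            have h7 := g1.resolve_left h5
            rw [h7, hee] at l1
            rw [h6] at l2
            exact absurd l1 (lt_asymm l2)
          · rw [g1.resolve_left h5, g2.resolve_left h6]
  omega

/-- The number of the tuples whose rich vertices belong to `C`. -/
theorem card_inside {k b m : ℕ} (hn : 1 ≤ n) (A : Fin t → Finset (Fin n)) (C : Finset (Fin n))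
    (hC : C.card = b) (hm : m * n + t * b ≤ ∑ j, (A j).card) :
    (univ.filter (fun β : Fin t → Fin k → Fin n => ∀ j i, β j i ∈ A j → β j i ∈ C)).card *
      2 ^ (k * m) ≤ n ^ (k * t) := by
  classical
  have h1 : univ.filter (fun β : Fin t → Fin k → Fin n => ∀ j i, β j i ∈ A j → β j i ∈ C) =
      Fintype.piFinset (fun j => Fintype.piFinset (fun _ : Fin k =>
        univ.filter (fun v => v ∈ A j → v ∈ C))) := by
    ext β
    simp only [mem_filter, mem_univ, true_and, Fintype.mem_piFinset]
  rw [h1, Fintype.card_piFinset]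
  simp only [Fintype.card_piFinset, prod_const, card_univ, Fintype.card_fin]
  have hn0 : (0 : ℝ) < n := by exact_mod_cast hn
  have h2 : ∀ j, ((univ.filter (fun v => v ∈ A j → v ∈ C)).card : ℝ) ≤
      n * Real.exp (-(((A j \ C).card : ℝ) / n)) := by
    intro j
    have h3 : univ.filter (fun v => v ∈ A j → v ∈ C) = (A j \ C)ᶜ := by
      ext v
      simp only [mem_filter, mem_univ, true_and, mem_compl, mem_sdiff, not_and, not_not]
    have h4 : (((A j \ C)ᶜ).card : ℝ) = n - (A j \ C).card := by
      have := card_compl_add_card (A j \ C)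
      rw [Fintype.card_fin] at this
      rw [eq_sub_iff_add_eq]
      exact_mod_cast this
    rw [h3, h4]
    have h5 := Real.add_one_le_exp (-(((A j \ C).card : ℝ) / n))
    calc (n : ℝ) - (A j \ C).card = n * (-(((A j \ C).card : ℝ) / n) + 1) := by
          field_simp
          ring
      _ ≤ _ := mul_le_mul_of_nonneg_left h5 hn0.le
  have h3 : (∏ j, ((univ.filter (fun v => v ∈ A j → v ∈ C)).card : ℝ) ^ k) ≤
      (n : ℝ) ^ (k * t) * Real.exp (-(k * m : ℝ)) := by
    calc (∏ j, ((univ.filter (fun v => v ∈ A j → v ∈ C)).card : ℝ) ^ k) ≤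
        ∏ j, (n * Real.exp (-(((A j \ C).card : ℝ) / n))) ^ k :=
          prod_le_prod (fun j _ => by positivity) fun j _ =>
            pow_le_pow_left₀ (Nat.cast_nonneg _) (h2 j) k
      _ = ∏ j, ((n : ℝ) ^ k * Real.exp (-(k * (((A j \ C).card : ℝ) / n)))) := by
          refine prod_congr rfl fun j _ => ?_
          rw [mul_pow, ← Real.exp_nat_mul]
          congr 2
          ring
      _ = (n : ℝ) ^ (k * t) * Real.exp (∑ j, -(k * (((A j \ C).card : ℝ) / n))) := by
          rw [prod_mul_distrib, prod_const, card_univ, Fintype.card_fin, ← pow_mul,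
            Real.exp_sum]
      _ ≤ _ := by
          refine mul_le_mul_of_nonneg_left (Real.exp_le_exp.2 ?_) (by positivity)
          rw [sum_neg_distrib, ← mul_sum, ← sum_div, neg_le_neg_iff]
          refine mul_le_mul_of_nonneg_left ?_ (Nat.cast_nonneg _)
          rw [le_div_iff₀ hn0]
          have h5 : ∑ j, (A j).card ≤ ∑ j, ((A j \ C).card + b) := by
            refine sum_le_sum fun j _ => ?_
            have := le_card_sdiff C (A j)
            omega
          rw [sum_add_distrib, sum_const, card_univ, Fintype.card_fin, smul_eq_mul] at h5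
          have h6 : m * n ≤ ∑ j, (A j \ C).card := by omega
          exact_mod_cast h6
  have h4 : (2 : ℝ) ^ (k * m) * Real.exp (-(k * m : ℝ)) ≤ 1 := by
    have h5 : (2 : ℝ) ^ (k * m) ≤ Real.exp (k * m : ℝ) := by
      have h6 : (2 : ℝ) ≤ Real.exp 1 := by
        have := Real.add_one_le_exp (1 : ℝ)
        linarith
      calc (2 : ℝ) ^ (k * m) ≤ (Real.exp 1) ^ (k * m) := pow_le_pow_left₀ (by norm_num) h6 _
        _ = Real.exp (k * m : ℝ) := by
            rw [← Real.exp_nat_mul]
            push_cast
            rw [mul_one]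
    calc (2 : ℝ) ^ (k * m) * Real.exp (-(k * m : ℝ)) ≤
        Real.exp (k * m : ℝ) * Real.exp (-(k * m : ℝ)) :=
          mul_le_mul_of_nonneg_right h5 (Real.exp_pos _).le
      _ = 1 := by rw [← Real.exp_add, add_neg_cancel, Real.exp_zero]
  have h5 : ((∏ j, (univ.filter (fun v => v ∈ A j → v ∈ C)).card ^ k : ℕ) : ℝ) *
      (2 : ℝ) ^ (k * m) ≤ (n : ℝ) ^ (k * t) := by
    push_cast
    calc (∏ j, ((univ.filter (fun v => v ∈ A j → v ∈ C)).card : ℝ) ^ k) * (2 : ℝ) ^ (k * m) ≤
        ((n : ℝ) ^ (k * t) * Real.exp (-(k * m : ℝ))) * (2 : ℝ) ^ (k * m) :=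
          mul_le_mul_of_nonneg_right h3 (by positivity)
      _ = (n : ℝ) ^ (k * t) * ((2 : ℝ) ^ (k * m) * Real.exp (-(k * m : ℝ))) := by ring
      _ ≤ (n : ℝ) ^ (k * t) * 1 := mul_le_mul_of_nonneg_left h4 (by positivity)
      _ = _ := mul_one _
  exact_mod_cast h5

/-- Few mixtures have small covers. -/
theorem few_bad {r k κ y : ℕ} (hn : 4 ≤ n) (hr : 1 ≤ r) (hk : 1 ≤ k) (hκ : 1 ≤ κ)
    (hy : 8 * κ * y ≤ n) (h8 : 8 * (t * (r * k)) ≤ n) (h16 : n ≤ 16 * (t * (r * k)))
    (hm : (64 * t) ^ r * 2 ≤ 2 ^ (κ - 1)) (p : Pair n → Fin t)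
    (hb : ∀ j, (univ.filter (fun e => p e = j)).card ≤ 2 * y ^ 2) :
    ∃ B : Finset (Fin t → (Fin k → Fin n)),
      (∀ β, CoverLe (r * k) (mixp p star β) → β ∈ B) ∧
      B.card * 2 ^ k ≤ Fintype.card (Fin k → Fin n) ^ t := by
  classical
  obtain ⟨b, hbd⟩ : ∃ b, b = r * k := ⟨_, rfl⟩
  rw [← hbd] at h8 h16 ⊢
  have hb1 : 1 ≤ b := by
    rw [hbd]
    exact Nat.mul_pos hr hk
  have ht1 : 1 ≤ t := by
    rcases Nat.eq_zero_or_pos t with h | h
    · subst h
      omega
    · exact h
  have hbn : b ≤ n := by
    have : b ≤ t * b := Nat.le_mul_of_pos_left _ ht1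
    omega
  obtain ⟨m, hmd⟩ : ∃ m, m = κ - 1 := ⟨_, rfl⟩
  rw [← hmd] at hm
  -- the sum of the numbers of rich vertices
  have h1 := sum_rich p b y hb
  obtain ⟨sr, hsr⟩ : ∃ s, s = ∑ j, (rich p b j).card := ⟨_, rfl⟩
  rw [← hsr] at h1
  have h2 := card_pair n
  have h3 : κ * n ≤ sr := by
    have e1 : t * (n * b) = n * (t * b) := by ring
    have e2 : 8 * (n * (t * b)) ≤ n * n := by
      calc 8 * (n * (t * b)) = n * (8 * (t * b)) := by ring
        _ ≤ n * n := Nat.mul_le_mul_left _ h8
    have e3 : 4 * n ≤ n * n := Nat.mul_le_mul_right _ hn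
    have e4 : n * n ≤ 8 * (y * sr) := by
      have e5 : 2 * y * sr = 2 * (y * sr) := by ring
      rw [e1, e5] at h1
      omega
    refine Nat.le_of_mul_le_mul_left (c := n) ?_ (by omega)
    calc n * (κ * n) = κ * (n * n) := by ring
      _ ≤ κ * (8 * (y * sr)) := Nat.mul_le_mul_left _ e4
      _ = (8 * κ * y) * sr := by ring
      _ ≤ n * sr := Nat.mul_le_mul_right _ hy
  have h4 : m * n + t * b ≤ sr := by
    have e1 : κ = m + 1 := by omega
    rw [e1, add_mul, one_mul] at h3
    omega
  refine ⟨(powersetCard b (univ : Finset (Fin n))).biUnion (fun C =>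
    univ.filter (fun β : Fin t → Fin k → Fin n => ∀ j i, β j i ∈ rich p b j → β j i ∈ C)),
    fun β hβ => ?_, ?_⟩
  · obtain ⟨C, hC1, hC2⟩ := hβ
    obtain ⟨C', hC3, -, hC4⟩ := exists_subsuperset_card_eq (subset_univ C) hC2
      (by rwa [card_univ, Fintype.card_fin])
    rw [mem_biUnion]
    refine ⟨C', mem_powersetCard.2 ⟨subset_univ _, hC4⟩, mem_filter.2 ⟨mem_univ _, ?_⟩⟩
    intro j i hji
    exact hC3 (rich_mem p β hC1 hC2 j i hji)
  · obtain ⟨G, hG⟩ : ∃ G, G = n ^ (k * t) := ⟨_, rfl⟩
    have hU : Fintype.card (Fin k → Fin n) ^ t = G := by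
      rw [Fintype.card_fun, Fintype.card_fin, Fintype.card_fin, hG, pow_mul]
    rw [hU]
    obtain ⟨X, hX⟩ : ∃ X, X = ((powersetCard b (univ : Finset (Fin n))).biUnion (fun C =>
      univ.filter (fun β : Fin t → Fin k → Fin n =>
        ∀ j i, β j i ∈ rich p b j → β j i ∈ C))).card := ⟨_, rfl⟩
    rw [← hX]
    have h5 : X * 2 ^ (k * m) ≤ n.choose b * G := by
      calc X * 2 ^ (k * m) ≤ (∑ C ∈ powersetCard b (univ : Finset (Fin n)),
          (univ.filter (fun β : Fin t → Fin k → Fin n =>
            ∀ j i, β j i ∈ rich p b j → β j i ∈ C)).card) * 2 ^ (k * m) := by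
            rw [hX]
            exact Nat.mul_le_mul_right _ card_biUnion_le
        _ = ∑ C ∈ powersetCard b (univ : Finset (Fin n)),
          (univ.filter (fun β : Fin t → Fin k → Fin n =>
            ∀ j i, β j i ∈ rich p b j → β j i ∈ C)).card * 2 ^ (k * m) := by rw [sum_mul]
        _ ≤ ∑ _C ∈ powersetCard b (univ : Finset (Fin n)), G := by
            refine sum_le_sum fun C hC => ?_
            rw [hG]
            exact card_inside (by omega) _ C (mem_powersetCard.1 hC).2 (by rwa [← hsr])
        _ = _ := by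
            rw [sum_const, smul_eq_mul, card_powersetCard, card_univ, Fintype.card_fin]
    have h6 : n.choose b ≤ (64 * t) ^ b := by
      refine Nat.le_of_mul_le_mul_right (c := b ^ b) ?_ (Nat.pow_pos hb1)
      calc n.choose b * b ^ b ≤ (4 * n) ^ b := choose_mul_pow_le n b
        _ ≤ (64 * t * b) ^ b := by
            refine Nat.pow_le_pow_left ?_ _
            have : 64 * t * b = 4 * (16 * (t * b)) := by ring
            omega
        _ = _ := by rw [mul_pow]
    have h7 : (64 * t) ^ b * 2 ^ k ≤ 2 ^ (k * m) := by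
      calc (64 * t) ^ b * 2 ^ k = ((64 * t) ^ r * 2) ^ k := by
            rw [hbd, pow_mul, ← mul_pow]
        _ ≤ (2 ^ m) ^ k := Nat.pow_le_pow_left hm _
        _ = _ := by rw [← pow_mul, mul_comm]
    refine Nat.le_of_mul_le_mul_left (c := 2 ^ (k * m)) ?_ (by positivity)
    calc 2 ^ (k * m) * (X * 2 ^ k) = (X * 2 ^ (k * m)) * 2 ^ k := by ring
      _ ≤ (n.choose b * G) * 2 ^ k := Nat.mul_le_mul_right _ h5
      _ ≤ ((64 * t) ^ b * G) * 2 ^ k :=
          Nat.mul_le_mul_right _ (Nat.mul_le_mul_right _ h6)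
      _ = ((64 * t) ^ b * 2 ^ k) * G := by ring
      _ ≤ _ := Nat.mul_le_mul_right _ h7

end Pool.Agent.N598.VT
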