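import Pool.Agent.TH700.PA.Defs

/-!
# Graphs given by their adjacency bits, vertex covers
-/

set_option autoImplicit false

namespace Pool.Agent.N598.VT

/-- The pairs of different vertices; a graph with vertex set `Fin n` is a map `Pair n → Bool` (the
adjacency bits). -/
abbrev Pair (n : ℕ) : Type := {e : Fin n × Fin n // e.1 < e.2}

/-- `C` is a vertex cover of the graph `x`. -/
def IsCover {n : ℕ} (x : Pair n → Bool) (C : Finset (Fin n)) : Prop :=
  ∀ e : Pair n, x e = true → e.1.1 ∈ C ∨ e.1.2 ∈ C

/-- Some vertex cover of the graph `x` has at most `k` vertices. -/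
def CoverLe {n : ℕ} (k : ℕ) (x : Pair n → Bool) : Prop :=
  ∃ C : Finset (Fin n), IsCover x C ∧ C.card ≤ k

end Pool.Agent.N598.VT
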