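import Pool.Agent.N598.VT.Core

/-!
# Tensor networks for the approximation of the vertex cover number
-/

set_option autoImplicit false

open Finset

namespace Pool.Agent.N598.VT

open Pool.Agent.TH700.PA

/-- The lower bound. -/
theorem lower : ∃ Γ : ℕ, ∀ r n : ℕ, 1 ≤ r → Γ * r ^ 10 ≤ n → ∃ k : ℕ, 1 ≤ k ∧
    ∀ (μ : ℕ) (R : Type) [Fintype R] [Nonempty R] (K W : R → Type) [∀ ω, Field (K ω)]
      [∀ ω, Fintype (W ω)] (T : ∀ ω, Net (K ω) (Pair n) Bool (W ω)) (a : ∀ ω, W ω → K ω),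
      (∀ ω e, (T ω).reads e ≤ 1) →
      (∀ ω x, ¬ CoverLe (r * k) x → (T ω).value (a ω) x = 0) →
      (∀ x, CoverLe k x → Nat.card R ≤ 2 ^ μ * Nat.card {ω // (T ω).value (a ω) x ≠ 0}) →
      ∃ ω, 2 ^ n ≤ (2 ^ μ * Fintype.card (W ω)) ^ (Γ * r ^ 9) := by
  classical
  refine ⟨2 ^ 60, fun r n hr hn => ?_⟩
  obtain ⟨κ, hκ⟩ : ∃ κ, κ = 64 * r ^ 2 := ⟨_, rfl⟩
  obtain ⟨t, ht⟩ : ∃ t, t = 256 * κ ^ 2 + 1 := ⟨_, rfl⟩
  have hr2 : 1 ≤ r ^ 2 := Nat.one_le_pow _ _ hr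
  have hr4 : 1 ≤ r ^ 4 := Nat.one_le_pow _ _ hr
  have hr5 : 1 ≤ r ^ 5 := Nat.one_le_pow _ _ hr
  have ht2 : t ≤ 2 ^ 21 * r ^ 4 := by
    rw [ht, hκ]
    have : 256 * (64 * r ^ 2) ^ 2 = 2 ^ 20 * r ^ 4 := by ring
    rw [this]
    omega
  have ht1 : 1 ≤ t := by omega
  have hr10 : r ^ 10 = r ^ 5 * r ^ 5 := by ring
  obtain ⟨D, hD⟩ : ∃ D, D = 8 * (t * r) := ⟨_, rfl⟩
  have hD1 : 1 ≤ D := by
    rw [hD]
    exact Nat.mul_pos (by norm_num) (Nat.mul_pos ht1 hr)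
  have hD2 : D ≤ 2 ^ 24 * r ^ 5 := by
    rw [hD]
    calc 8 * (t * r) ≤ 8 * (2 ^ 21 * r ^ 4 * r) :=
          Nat.mul_le_mul_left _ (Nat.mul_le_mul_right _ ht2)
      _ = _ := by ring
  obtain ⟨k, hk⟩ : ∃ k, k = n / D := ⟨_, rfl⟩
  have hDk : D * k ≤ n := by
    rw [hk]
    exact Nat.mul_div_le n D
  have hDk' : n < D * (k + 1) := by
    rw [hk]
    exact Nat.lt_mul_div_succ n (by omega)
  -- `k` is large
  have hk5 : 2 ^ 36 * r ^ 5 ≤ k := by
    rw [hk, Nat.le_div_iff_mul_le (by omega)]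
    calc 2 ^ 36 * r ^ 5 * D ≤ 2 ^ 36 * r ^ 5 * (2 ^ 24 * r ^ 5) := Nat.mul_le_mul_left _ hD2
      _ = 2 ^ 60 * r ^ 10 := by rw [hr10]; ring
      _ ≤ n := hn
  have hk1 : 1 ≤ k := by omega
  have hnD : n ≤ 2 * (D * k) := by
    have : D * (k + 1) = D * k + D := by ring
    have h2 : D ≤ D * k := Nat.le_mul_of_pos_right _ hk1
    omega
  refine ⟨k, hk1, fun μ R _ _ K W _ _ T a h1 hno hyes => ?_⟩
  have h8 : 8 * (t * (r * k)) ≤ n := by
    have : 8 * (t * (r * k)) = D * k := by rw [hD]; ring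
    omega
  have h16 : n ≤ 16 * (t * (r * k)) := by
    have : 16 * (t * (r * k)) = 2 * (D * k) := by rw [hD]; ring
    omega
  have hκ1 : 1 ≤ κ := by omega
  obtain ⟨y, hy⟩ : ∃ y, y = n / (8 * κ) := ⟨_, rfl⟩
  have hκn : 8 * κ ≤ n := by
    have e1 : κ ≤ t := by
      rw [ht]
      nlinarith
    have e2 : t ≤ t * (r * k) := Nat.le_mul_of_pos_right _ (Nat.mul_pos hr hk1)
    omega
  have hy1 : 1 ≤ y := by
    rw [hy]
    exact Nat.div_pos hκn (by omega)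
  have hyn : 8 * κ * y ≤ n := by
    rw [hy]
    exact Nat.mul_div_le n _
  have hny : n < 8 * κ * (y + 1) := by
    rw [hy]
    exact Nat.lt_mul_div_succ n (by omega)
  have hn4 : 4 ≤ n := by omega
  have : Nonempty (Fin n) := ⟨⟨0, by omega⟩⟩
  have hE : 2 * Fintype.card (Pair n) + y ^ 2 ≤ y ^ 2 * t := by
    have e0 := card_pair n
    have e1 : n ≤ 16 * κ * y := by nlinarith
    have e2 : n * n ≤ (16 * κ * y) * (16 * κ * y) := Nat.mul_le_mul e1 e1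
    calc 2 * Fintype.card (Pair n) + y ^ 2 ≤ n * n + y ^ 2 := by omega
      _ ≤ (16 * κ * y) * (16 * κ * y) + y ^ 2 := Nat.add_le_add_right e2 _
      _ = _ := by rw [ht]; ring
  have hm : (64 * t) ^ r * 2 ≤ 2 ^ (κ - 1) := by
    have e1 : r ^ 4 ≤ 2 ^ (4 * r) := by
      calc r ^ 4 ≤ (2 ^ r) ^ 4 := Nat.pow_le_pow_left Nat.lt_two_pow_self.le _
        _ = _ := by rw [← pow_mul, mul_comm]
    have e2 : 64 * t ≤ 2 ^ (27 + 4 * r) := by
      calc 64 * t ≤ 64 * (2 ^ 21 * r ^ 4) := Nat.mul_le_mul_left _ ht2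
        _ ≤ 64 * (2 ^ 21 * 2 ^ (4 * r)) :=
          Nat.mul_le_mul_left _ (Nat.mul_le_mul_left _ e1)
        _ = _ := by rw [pow_add]; ring
    calc (64 * t) ^ r * 2 ≤ (2 ^ (27 + 4 * r)) ^ r * 2 :=
          Nat.mul_le_mul_right _ (Nat.pow_le_pow_left e2 _)
      _ = 2 ^ ((27 + 4 * r) * r + 1) := by rw [← pow_mul, pow_succ]
      _ ≤ _ := by
          refine Nat.pow_le_pow_right (by norm_num) ?_
          rw [hκ]
          have : (27 + 4 * r) * r + 1 + 1 ≤ 64 * r ^ 2 := by nlinarith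
          omega
  obtain ⟨ρ, hρ, hw1⟩ := rand_density μ R K W T a h1 (θ := y ^ 2) (t := t)
    (Nat.one_le_pow _ _ hy1) ht1 hE (U := Fin k → Fin n) star
    (univ : Finset (Fin k → Fin n)) (η := 0) (by rw [card_univ, pow_zero, one_mul])
    (fun σ _ => hyes _ (star_cover σ)) (N := 2 ^ k) (fun ρ p hp => by
        obtain ⟨B, hB1, hB2⟩ := few_bad (k := k) hn4 hr hk1 hκ1 hyn h8 h16 hm p hp
        exact ⟨B, fun b hb => hB1 b (by_contra fun hv => hb (hno ρ _ hv)), hB2⟩)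
  refine ⟨ρ, ?_⟩
  obtain ⟨w, hw⟩ : ∃ w, w = Fintype.card (W ρ) := ⟨_, rfl⟩
  rw [← hw] at hρ hw1 ⊢
  obtain ⟨X, hX⟩ : ∃ X, X = 2 ^ μ * w := ⟨_, rfl⟩
  have hX1 : 1 ≤ X := by
    rw [hX]
    exact Nat.mul_pos (Nat.pow_pos (by norm_num)) hw1
  rw [← hX]
  -- the logarithm of `2 t`
  have ht3 : 2 * t ≤ 2 ^ (22 + 4 * r) := by
    have e1 : r ^ 4 ≤ 2 ^ (4 * r) := by
      calc r ^ 4 ≤ (2 ^ r) ^ 4 := Nat.pow_le_pow_left Nat.lt_two_pow_self.le _
        _ = _ := by rw [← pow_mul, mul_comm]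
    calc 2 * t ≤ 2 * (2 ^ 21 * r ^ 4) := Nat.mul_le_mul_left _ ht2
      _ ≤ 2 * (2 ^ 21 * 2 ^ (4 * r)) := Nat.mul_le_mul_left _ (Nat.mul_le_mul_left _ e1)
      _ = _ := by rw [pow_add]; ring
  have e1 : 2 ^ (μ + 0 + 1) * (t * w ^ 3) ≤ 2 ^ (22 + 4 * r) * X ^ 3 := by
    have e3 : 2 ^ μ ≤ (2 ^ μ) ^ 3 := by
      conv_lhs => rw [← pow_one (2 ^ μ)]
      exact Nat.pow_le_pow_right (Nat.pow_pos (by norm_num)) (by norm_num)
    calc 2 ^ (μ + 0 + 1) * (t * w ^ 3) = (2 * t) * (2 ^ μ * w ^ 3) := by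
          rw [add_zero, pow_succ]; ring
      _ ≤ 2 ^ (22 + 4 * r) * ((2 ^ μ) ^ 3 * w ^ 3) :=
        Nat.mul_le_mul ht3 (Nat.mul_le_mul_right _ e3)
      _ = _ := by rw [hX, mul_pow]
  have e4 : 2 ^ k ≤ 2 ^ ((22 + 4 * r) * (t + 1)) * X ^ (3 * (t + 1)) := by
    calc 2 ^ k ≤ (2 ^ (22 + 4 * r) * X ^ 3) ^ (t + 1) := hρ.trans (Nat.pow_le_pow_left e1 _)
      _ = _ := by rw [mul_pow, ← pow_mul, ← pow_mul]
  have e5 : 2 * ((22 + 4 * r) * (t + 1)) ≤ k := by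
    refine le_trans ?_ hk5
    have f1 : 22 + 4 * r ≤ 26 * r := by omega
    have f2 : t + 1 ≤ 2 ^ 22 * r ^ 4 := by omega
    calc 2 * ((22 + 4 * r) * (t + 1)) ≤ 2 * ((26 * r) * (2 ^ 22 * r ^ 4)) :=
          Nat.mul_le_mul_left _ (Nat.mul_le_mul f1 f2)
      _ = 52 * 2 ^ 22 * r ^ 5 := by ring
      _ ≤ _ := Nat.mul_le_mul_right _ (by norm_num)
  have e6 : 2 ^ k ≤ X ^ (6 * (t + 1)) := by
    have f1 : 2 ^ k * 2 ^ k ≤ 2 ^ k * X ^ (6 * (t + 1)) := by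
      calc 2 ^ k * 2 ^ k ≤ (2 ^ ((22 + 4 * r) * (t + 1)) * X ^ (3 * (t + 1))) *
            (2 ^ ((22 + 4 * r) * (t + 1)) * X ^ (3 * (t + 1))) := Nat.mul_le_mul e4 e4
        _ = 2 ^ (2 * ((22 + 4 * r) * (t + 1))) * X ^ (6 * (t + 1)) := by
            rw [show 6 * (t + 1) = 3 * (t + 1) + 3 * (t + 1) by ring, pow_add X,
              show 2 * ((22 + 4 * r) * (t + 1)) = (22 + 4 * r) * (t + 1) +
                (22 + 4 * r) * (t + 1) by ring, pow_add 2]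
            ring
        _ ≤ _ := Nat.mul_le_mul_right _ (Nat.pow_le_pow_right (by norm_num) e5)
    exact Nat.le_of_mul_le_mul_left f1 (by positivity)
  calc 2 ^ n ≤ 2 ^ (2 * (D * k)) := Nat.pow_le_pow_right (by norm_num) hnD
    _ = (2 ^ k) ^ (2 * D) := by rw [← pow_mul]; congr 1; ring
    _ ≤ (X ^ (6 * (t + 1))) ^ (2 * D) := Nat.pow_le_pow_left e6 _
    _ = X ^ (6 * (t + 1) * (2 * D)) := (pow_mul _ _ _).symm
    _ ≤ _ := by
        refine Nat.pow_le_pow_right hX1 ?_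
        have f2 : t + 1 ≤ 2 ^ 22 * r ^ 4 := by omega
        calc 6 * (t + 1) * (2 * D) ≤ 6 * (2 ^ 22 * r ^ 4) * (2 * (2 ^ 24 * r ^ 5)) :=
              Nat.mul_le_mul (Nat.mul_le_mul_left _ f2) (Nat.mul_le_mul_left _ hD2)
          _ = 12 * 2 ^ 46 * r ^ 9 := by ring
          _ ≤ _ := Nat.mul_le_mul_right _ (by norm_num)

/-- The block of a vertex, if the vertices are divided into blocks of `r` vertices. -/
def block {n r : ℕ} (_hr : 1 ≤ r) (v : Fin n) : Fin (n / r + 1) :=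
  ⟨v.1 / r, Nat.lt_succ_of_le (Nat.div_le_div_right v.2.le)⟩

/-- Conversely networks with bond dimension `2 ^ (n / r + 1)` approximate within the factor `r`. -/
theorem upper {n r : ℕ} (hr : 1 ≤ r) (hn : 2 ≤ n) (k : ℕ) :
    ∃ (T : Net ℚ (Pair n) Bool (Finset (Fin (n / r + 1))))
      (a : Finset (Fin (n / r + 1)) → ℚ),
      T.Linear ∧ (∀ e, T.reads e = 1) ∧
        (∀ x, CoverLe k x → T.value a x ≠ 0) ∧ ∀ x, T.value a x ≠ 0 → CoverLe (r * k) x := by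
  classical
  have : Nonempty (Pair n) := ⟨⟨(⟨0, by omega⟩, ⟨1, by omega⟩), by simp [Fin.lt_def]⟩⟩
  obtain ⟨T, h1, h2, -, h4⟩ := exists_product (K := ℚ)
    (fun (e : Pair n) (u : Bool) (D : Finset (Fin (n / r + 1))) =>
      if u = true → block hr e.1.1 ∈ D ∨ block hr e.1.2 ∈ D then (1 : ℚ) else 0)
  have h5 : ∀ (x : Pair n → Bool) (D : Finset (Fin (n / r + 1))), 0 ≤ T.eval x D ∧
      (T.eval x D ≠ 0 ↔ ∀ e, x e = true → block hr e.1.1 ∈ D ∨ block hr e.1.2 ∈ D) := by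
    intro x D
    rw [h4]
    refine ⟨prod_nonneg fun e _ => by split_ifs <;> norm_num, ?_⟩
    rw [prod_ne_zero_iff]
    constructor
    · intro h e
      by_contra hcon
      exact h e (mem_univ _) (if_neg hcon)
    · intro h e _
      rw [if_pos (h e)]
      exact one_ne_zero
  obtain ⟨a, ha⟩ : ∃ a : Finset (Fin (n / r + 1)) → ℚ, a = fun D => if D.card ≤ k then 1 else 0 :=
    ⟨_, rfl⟩
  have h6 : ∀ x, T.value a x ≠ 0 ↔ ∃ D : Finset (Fin (n / r + 1)), D.card ≤ k ∧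
      ∀ e, x e = true → block hr e.1.1 ∈ D ∨ block hr e.1.2 ∈ D := by
    intro x
    unfold Net.value
    rw [Ne, sum_eq_zero_iff_of_nonneg (fun D _ => by
      rw [ha]
      exact mul_nonneg (by simp only; split_ifs <;> norm_num) (h5 x D).1)]
    push Not
    constructor
    · rintro ⟨D, -, hD⟩
      have g1 : a D ≠ 0 := left_ne_zero_of_mul hD
      have g2 : T.eval x D ≠ 0 := right_ne_zero_of_mul hD
      refine ⟨D, ?_, (h5 x D).2.1 g2⟩
      by_contra hcon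
      rw [ha] at g1
      exact g1 (if_neg hcon)
    · rintro ⟨D, hD1, hD2⟩
      refine ⟨D, mem_univ _, mul_ne_zero ?_ ((h5 x D).2.2 hD2)⟩
      rw [ha]
      simp only
      rw [if_pos hD1]
      exact one_ne_zero
  refine ⟨T, a, h1, h2, fun x hx => ?_, fun x hx => ?_⟩
  · obtain ⟨C, hC1, hC2⟩ := hx
    rw [h6]
    refine ⟨C.image (block hr), card_image_le.trans hC2, fun e he => ?_⟩
    exact (hC1 e he).imp (mem_image_of_mem _) (mem_image_of_mem _)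
  · rw [h6] at hx
    obtain ⟨D, hD1, hD2⟩ := hx
    refine ⟨univ.filter (fun v => block hr v ∈ D), fun e he => ?_, ?_⟩
    · exact (hD2 e he).imp (fun h => mem_filter.2 ⟨mem_univ _, h⟩)
        fun h => mem_filter.2 ⟨mem_univ _, h⟩
    · have g1 : (univ.filter (fun v : Fin n => block hr v ∈ D)).card ≤ r * D.card := by
        refine card_le_mul_card_image_of_maps_to (f := fun v : Fin n => block hr v) (t := D)
          (fun v hv => (mem_filter.1 hv).2) r fun d _ => ?_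
        have g2 : (filter (fun v : Fin n => block hr v = d)
            (univ.filter (fun v : Fin n => block hr v ∈ D))).card ≤
            (Finset.Ico (r * d.1) (r * d.1 + r)).card := by
          refine card_le_card_of_injOn (fun v => v.1) (fun v hv => ?_)
            (fun v _ v' _ h => Fin.ext h)
          have hv' := (mem_filter.1 hv).2
          have g3 : v.1 / r = d.1 := by
            have := congrArg Fin.val hv'
            exact this
          rw [Finset.coe_Ico, Set.mem_Ico, ← g3]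
          refine ⟨Nat.mul_div_le _ _, ?_⟩
          have := Nat.lt_mul_div_succ v.1 (show 0 < r by omega)
          rw [mul_add, mul_one] at this
          exact this
        rw [Nat.card_Ico] at g2
        omega
      exact g1.trans (Nat.mul_le_mul_left _ hD1)

end Pool.Agent.N598.VT
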